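import Pool.Agent.Helper14.FO.Defs2

set_option autoImplicit false

namespace Pool.Agent.Helper14.FO

open Finset

theorem nx2_mono {V : Type} [Fintype V] [DecidableEq V] (X : SimpleGraph V) (M M' : ℝ)
    (hM : M ≤ M') (h : Cert X M) : Cert X M' := by
  obtain ⟨A, h1, h2, h3, h4⟩ := h
  refine ⟨A, h1, h2, ?_, h4⟩
  have e : A + M' • (1 : Matrix V V ℝ) = (A + M • (1 : Matrix V V ℝ)) +
      (M' - M) • (1 : Matrix V V ℝ) := by
    rw [sub_smul]
    abel
  rw [e]
  exact h3.add (Matrix.PosSemidef.one.smul (by linarith))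

theorem nx2_max {V : Type} [Fintype V] (X : SimpleGraph V) :
    ∃ I : Finset V, Ind X I ∧ ∀ J : Finset V, Ind X J → J.card ≤ I.card := by
  classical
  obtain ⟨I, hI, hmax⟩ := exists_max_image ((univ : Finset (Finset V)).filter fun I => Ind X I)
    (fun I => I.card) ⟨∅, by simp [Ind]⟩
  rw [mem_filter] at hI
  exact ⟨I, hI.2, fun J hJ => hmax J (by simp [hJ])⟩

theorem nx2_ar (C g m s i k : ℕ) (h : s ≤ m * i + 2 ^ g * k * g) (e1 : C * i < g)
    (e2 : C * 2 ^ g * g * k < m) : C * s < m * g := by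
  have e3 : C * s ≤ m * (C * i) + C * 2 ^ g * g * k := by
    have := Nat.mul_le_mul_left C h
    calc C * s ≤ C * (m * i + 2 ^ g * k * g) := this
      _ = m * (C * i) + C * 2 ^ g * g * k := by ring
  have e4 : m * (C * i + 1) ≤ m * g := Nat.mul_le_mul_left m e1
  have e5 : m * (C * i + 1) = m * (C * i) + m := by ring
  omega

theorem st_NX2 (h1 : ST_RT2) (h2 : ST_TEN) (h3 : ST_PIG) : ST_NX2 := by
  intro C X a b ha hab hb
  have hlo := X.lo
  obtain ⟨B, hBa, hBb⟩ := h1 (C * 2 ^ Fintype.card X.G * Fintype.card X.G) a b (by linarith) hab hb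
  obtain ⟨I, hI, hImax⟩ := nx2_max X.R
  obtain ⟨K, hK, hKmax⟩ := nx2_max B.R
  have e1 := X.ind I hI
  have e2 := B.ind K hK
  refine ⟨{ G := B.G × X.G
            R := Ten B.R X.R
            M := B.M
            ti := ?_
            ind := ?_
            cert := h2 _ _ _ _ _ (by linarith) (by linarith) B.cert
              (nx2_mono X.R X.M _ (by linarith) X.cert)
            upt := ?_
            lo := B.lo
            hi := B.hi }, hBa, hBb, Prod.snd, fun x y h => h.2⟩
  · intro x y g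
    exact and_congr (B.ti x.1 y.1 g.1) (X.ti x.2 y.2 g.2)
  · intro S hS
    have h := h3 _ _ B.R X.R K.card I.card hKmax hImax S hS
    rw [Fintype.card_prod]
    exact nx2_ar C _ _ _ _ _ h e1 e2
  · obtain ⟨d, v, hv1, hv2⟩ := B.upt
    exact ⟨d, fun x => v x.1, fun x => hv1 x.1, fun x y h => hv2 x.1 y.1 h.1⟩

end Pool.Agent.Helper14.FO
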